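import Pool.Agent.MP_b5e119_nt.G94.Defs
import Pool.Agent.MP_b5e119_nt.G27.Defs

/-! Moduli with a deficient sign pattern share one real primitive character. -/

namespace Pool.Agent.G6X

open Finset Filter Topology Pool.Agent.G60 Pool.Agent.G27 DirichletCharacter

noncomputable def repB {N : ℕ} (χ : Ch N) (m : ℕ) (τ : ℤ) : ℕ :=
  #{n ∈ Icc 1 (2 ^ m) | n.Coprime N ∧ lam n ≠ τ * re χ n}

noncomputable def repM {N : ℕ} (χ : Ch N) (m : ℕ) : ℕ := min (repB χ m 1) (repB χ m (-1))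

theorem rep_one {N : ℕ} {χ : Ch N} (h2 : χ ^ 2 = 1) {σ : ℤ} (hσ : σ = 1 ∨ σ = -1) {q m : ℕ}
    (hq : q.Prime) (hN : ¬q ∣ N) (h : q * 2 ^ m < N) :
    repM χ m ≤ #{u ∈ {n ∈ Ico 1 N | n.Coprime N ∧ lam n ≠ σ * re χ n} | q ∣ u} := by
  have q1 : q.Coprime N := (Nat.Prime.coprime_iff_not_dvd hq).2 hN
  have a : repM χ m ≤ repB χ m (-σ * re χ q) := by
    rcases hσ with rfl | rfl <;> rcases re_unit h2 q1 with e | e <;> rw [e] <;> simp [repM]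
  refine a.trans (card_le_card_of_injOn (fun n => q * n) (fun n hn => ?_) fun a _ b _ e =>
    Nat.eq_of_mul_eq_mul_left hq.pos e)
  simp only [coe_filter, mem_Icc, Set.mem_ofPred_eq, mem_filter, mem_Ico] at hn ⊢
  obtain ⟨⟨n1, n2⟩, n4, n3⟩ := hn
  refine ⟨⟨⟨Nat.mul_pos hq.pos n1, lt_of_le_of_lt (Nat.mul_le_mul_left q n2) h⟩,
    Nat.Coprime.mul_left q1 n4, fun e => n3 ?_⟩, dvd_mul_right _ _⟩
  rw [lam_mul hq.ne_zero (by omega), lam_prime hq, re_mul h2] at e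
  linarith

theorem rep_om {u i k : ℕ} (h0 : 0 < u) (h : u < 2 ^ (i * (k + 1))) (Q : Finset ℕ)
    (hQ : ∀ q ∈ Q, q.Prime ∧ 2 ^ i ≤ q) : #{q ∈ Q | q ∣ u} ≤ k := by
  have h1 : ∏ q ∈ Q with q ∣ u, q ∣ u :=
    prod_primes_dvd u (fun q hq => (hQ q (mem_filter.1 hq).1).1.prime)
      fun q hq => (mem_filter.1 hq).2
  have h2 : (2 ^ i) ^ #{q ∈ Q | q ∣ u} ≤ ∏ q ∈ Q with q ∣ u, q :=
    pow_card_le_prod _ _ _ fun q hq => (hQ q (mem_filter.1 hq).1).2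
  have h3 := lt_of_le_of_lt (h2.trans (Nat.le_of_dvd h0 h1)) h
  rw [← pow_mul, Nat.pow_lt_pow_iff_right one_lt_two] at h3
  exact Nat.lt_succ_iff.1 (Nat.lt_of_mul_lt_mul_left h3)

theorem rep_pow {i : ℕ} (h : 100 ≤ i) : 804 * (i + 1) ≤ 2 ^ i := by
  obtain ⟨j, rfl⟩ := Nat.exists_eq_add_of_le' (show 50 ≤ i by omega)
  have := j.lt_two_pow_self
  rw [pow_add]
  omega

theorem rep_down {i₀ : ℕ} (hD : ∀ i, i₀ ≤ i → 2 ^ i ≤ 2 * (i + 1) * #(G94.PD i)) {N : ℕ}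
    (hN : 0 < N) {χ : Ch N} (hχ : χ ^ 2 = 1) {σ : ℤ} (hσ : σ = 1 ∨ σ = -1) {t : ℕ}
    (t1 : i₀ + 100 ≤ t) (h1 : 100 * t ≤ Nat.log 2 N) (h2 : Nat.log 2 N ≤ 200 * t + 199) {η : ℝ}
    (hE : (EX χ σ : ℝ) ≤ η * N) :
    ∑ m ∈ Ico (97 * t) (98 * t), (repM χ m : ℝ) / 2 ^ m ≤ 675360 * η * t := by
  have l1 : 2 ^ Nat.log 2 N ≤ N := Nat.pow_log_le_self 2 hN.ne'
  have l2 : N < 2 ^ (Nat.log 2 N + 1) := Nat.lt_pow_succ_log_self one_lt_two N
  generalize Nat.log 2 N = l at *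
  obtain ⟨X, hX⟩ : ∃ X, X = {n ∈ Ico 1 N | n.Coprime N ∧ lam n ≠ σ * re χ n} := ⟨_, rfl⟩
  obtain ⟨F, hF⟩ : ∃ F : ℕ → Finset ℕ, F = fun i => {q ∈ G94.PD i | ¬q ∣ N} := ⟨_, rfl⟩
  have hP0 : ∀ i, ∀ q ∈ G94.PD i, q.Prime ∧ 2 ^ i < q ∧ q ≤ 2 ^ (i + 1) := fun i q hq => by
    simp only [G94.PD, mem_filter, mem_Ioc] at hq
    exact ⟨hq.2, hq.1⟩
  have hP : ∀ i, ∀ q ∈ F i, (q.Prime ∧ 2 ^ i < q ∧ q ≤ 2 ^ (i + 1)) ∧ ¬q ∣ N := fun i q hq => by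
    rw [hF, mem_filter] at hq
    exact ⟨hP0 i q hq.1, hq.2⟩
  have hl : 2 ^ (l + 1) ≤ 2 ^ (t * (201 + 1)) := Nat.pow_le_pow_right two_pos (by omega)
  have a1 : ∀ m ∈ Ico (97 * t) (98 * t), #(F (l - m - 2)) * repM χ m ≤
      ∑ q ∈ F (l - m - 2), #{u ∈ X | q ∣ u} := fun m hm => by
    rw [mem_Ico] at hm
    rw [← smul_eq_mul]
    refine card_nsmul_le_sum _ _ _ fun q hq => ?_
    rw [hX]
    refine rep_one hχ hσ (hP _ q hq).1.1 (hP _ q hq).2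
      (lt_of_le_of_lt (Nat.mul_le_mul_right _ (hP _ q hq).1.2.2) ?_)
    rw [← pow_add]
    exact lt_of_lt_of_le (Nat.pow_lt_pow_right one_lt_two (by omega)) l1
  have a2 : ∑ m ∈ Ico (97 * t) (98 * t), ∑ q ∈ F (l - m - 2), #{u ∈ X | q ∣ u} =
      ∑ q ∈ (Ico (97 * t) (98 * t)).biUnion fun m => F (l - m - 2), #{u ∈ X | q ∣ u} := by
    refine (sum_biUnion fun m hm m' hm' hne => disjoint_left.2 fun q hq hq' => hne ?_).symm
    have b1 := lt_of_lt_of_le (hP _ q hq).1.2.1 (hP _ q hq').1.2.2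
    have b2 := lt_of_lt_of_le (hP _ q hq').1.2.1 (hP _ q hq).1.2.2
    rw [Nat.pow_lt_pow_iff_right one_lt_two] at b1 b2
    simp only [coe_Ico, Set.mem_Ico] at hm hm'
    omega
  have a3 : ∑ q ∈ (Ico (97 * t) (98 * t)).biUnion fun m => F (l - m - 2), #{u ∈ X | q ∣ u} ≤
      #X * 201 := by
    simp only [card_filter]
    rw [sum_comm, ← smul_eq_mul]
    refine sum_le_card_nsmul _ _ _ fun u hu => ?_
    rw [← card_filter]
    rw [hX, mem_filter, mem_Ico] at hu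
    refine rep_om (i := t) hu.1.1 (hu.1.2.trans (l2.trans_le hl)) _ fun q hq => ?_
    obtain ⟨m, hm, hq⟩ := mem_biUnion.1 hq
    rw [mem_Ico] at hm
    exact ⟨(hP _ q hq).1.1, (Nat.pow_le_pow_right two_pos (by omega)).trans (hP _ q hq).1.2.1.le⟩
  have a4 : ((∑ m ∈ Ico (97 * t) (98 * t), #(F (l - m - 2)) * repM χ m : ℕ) : ℝ) ≤
      201 * (η * N) := by
    have b : (#X : ℝ) ≤ η * N := by rw [hX]; exact hE
    have c : ((∑ m ∈ Ico (97 * t) (98 * t), #(F (l - m - 2)) * repM χ m : ℕ) : ℝ) ≤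
        (#X * 201 : ℕ) := Nat.cast_le.2 ((sum_le_sum a1).trans (a2.le.trans a3))
    push_cast at c ⊢
    linarith
  have p0 : (0 : ℝ) < N := Nat.cast_pos.2 hN
  have a5 : ∀ m ∈ Ico (97 * t) (98 * t), (repM χ m : ℝ) / 2 ^ m ≤
      3360 * t / N * ((#(F (l - m - 2)) * repM χ m : ℕ) : ℝ) := fun m hm => by
    rw [mem_Ico] at hm
    have b1 := hD (l - m - 2) (by omega)
    have c1 : #{q ∈ G94.PD (l - m - 2) | q ∣ N} ≤ 201 :=
      rep_om (i := t) hN (l2.trans_le hl) _ fun q hq => ⟨(hP0 _ q hq).1,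
        (Nat.pow_le_pow_right two_pos (by omega)).trans (hP0 _ q hq).2.1.le⟩
    have c2 : #{q ∈ G94.PD (l - m - 2) | q ∣ N} + #(F (l - m - 2)) = #(G94.PD (l - m - 2)) := by
      rw [hF]; exact card_filter_add_card_filter_not _
    have c3 : 402 ≤ #(G94.PD (l - m - 2)) := by
      have := (rep_pow (i := l - m - 2) (by omega)).trans b1
      exact Nat.le_of_mul_le_mul_left (a := 402) (c := 2 * (l - m - 2 + 1)) (by linarith) (by omega)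
    have b2 : N ≤ 3360 * t * #(F (l - m - 2)) * 2 ^ m := by
      have e : 2 ^ (l + 1) = 8 * 2 ^ (l - m - 2) * 2 ^ m := by
        rw [show l + 1 = 3 + (l - m - 2) + m by omega, pow_add, pow_add]
        rfl
      refine l2.le.trans (e.le.trans (Nat.mul_le_mul_right _ ?_))
      have b3 : 2 * (l - m - 2 + 1) * #(G94.PD (l - m - 2)) ≤ 210 * t * (2 * #(F (l - m - 2))) :=
        Nat.mul_le_mul (by omega) (by omega)
      linarith
    have b4 : (N : ℝ) ≤ 3360 * t * #(F (l - m - 2)) * 2 ^ m := by exact_mod_cast b2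
    rw [div_mul_eq_mul_div, div_le_div_iff₀ (by positivity) p0]
    push_cast
    nlinarith [mul_le_mul_of_nonneg_left b4 (Nat.cast_nonneg (α := ℝ) (repM χ m))]
  refine (sum_le_sum a5).trans ?_
  rw [← mul_sum, ← Nat.cast_sum]
  refine (mul_le_mul_of_nonneg_left a4 (by positivity)).trans (le_of_eq ?_)
  field_simp
  ring

theorem rep_lev {N M : ℕ} (h : N ∣ M) (χ : Ch N) {n : ℕ} (hn : n.Coprime M) :
    changeLevel h χ (n : ZMod M) = χ (n : ZMod N) := by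
  have := changeLevel_eq_cast_of_dvd' χ h (a := (n : ℤ)) (Nat.isCoprime_iff_coprime.2 hn)
  rwa [Int.cast_natCast, Int.cast_natCast] at this

theorem rep_sum {N N' : ℕ} {χ : Ch N} {χ' : Ch N'} (h : χ ^ 2 = 1) (h' : χ' ^ 2 = 1)
    (ψ : Ch (N * N')) (hψ : ∀ n : ℕ, n.Coprime (N * N') → re ψ n = re χ n * re χ' n) (m : ℕ) :
    (UN (N * N') (2 ^ m) : ℝ) - 2 * (repM χ m + repM χ' m) ≤
      |∑ t ∈ range (2 ^ m), (re ψ (1 + t) : ℝ)| := by
  have hm : ∀ {r : ℕ} (g : Ch r), ∃ τ : ℤ, (τ = 1 ∨ τ = -1) ∧ repM g m = repB g m τ :=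
    fun g => (min_choice (repB g m 1) (repB g m (-1))).elim (fun h => ⟨1, Or.inl rfl, h⟩)
      fun h => ⟨-1, Or.inr rfl, h⟩
  obtain ⟨τ, hτ, e⟩ := hm χ
  obtain ⟨τ', hτ', e'⟩ := hm χ'
  have s1 : ∑ t ∈ range (2 ^ m), (re ψ (1 + t) : ℝ) = ∑ n ∈ Icc 1 (2 ^ m), (re ψ n : ℝ) := by
    rw [range_eq_Ico, ← Ico_add_one_right_eq_Icc, ← sum_Ico_add' _ 0 (2 ^ m) 1]
    exact sum_congr rfl fun t _ => by rw [add_comm 1 t]
  have s2 : ∀ n ∈ Icc 1 (2 ^ m), (if n.Coprime (N * N') then 1 else 0 : ℝ) -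
      2 * ((if n.Coprime N ∧ lam n ≠ τ * re χ n then 1 else 0) +
      (if n.Coprime N' ∧ lam n ≠ τ' * re χ' n then 1 else 0)) ≤
        ((τ * τ' : ℤ) : ℝ) * (re ψ n : ℝ) := fun n _ => by
    by_cases hn : n.Coprime (N * N')
    · have n1 := hn.coprime_mul_right_right
      have n2 := hn.coprime_mul_left_right
      rw [hψ n hn, if_pos hn]
      simp only [and_iff_right n1, and_iff_right n2]
      rcases hτ with rfl | rfl <;> rcases hτ' with rfl | rfl <;> rcases lam_cases n with a | a <;>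
        rcases re_unit h n1 with b | b <;> rcases re_unit h' n2 with c | c <;> rw [a, b, c] <;>
        norm_num
    · rw [re_nonunit ψ hn, if_neg hn]
      split_ifs <;> norm_num
  have s3 := sum_le_sum s2
  rw [sum_sub_distrib, ← mul_sum, ← mul_sum, sum_add_distrib, sum_boole, sum_boole,
    sum_boole] at s3
  rw [s1, e, e', repB, repB, UN]
  refine s3.trans ((le_abs_self _).trans (le_of_eq ?_))
  rw [abs_mul]
  rcases hτ with rfl | rfl <;> rcases hτ' with rfl | rfl <;> simp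

def REPN_s : Prop := ∀ η : ℝ, 0 < η → ∃ ε : ℝ, 0 < ε ∧ ∃ N₀ : ℕ, ∀ (N N' : ℕ) (χ : Ch N)
  (χ' : Ch N') (σ σ' : ℤ), N₀ ≤ N → N ≤ N' → N' ≤ N ^ 2 → η * N ≤ N.totient →
    η * N' ≤ N'.totient → χ ^ 2 = 1 → χ' ^ 2 = 1 → (σ = 1 ∨ σ = -1) → (σ' = 1 ∨ σ' = -1) →
      (EX χ σ : ℝ) ≤ ε * N → (EX χ' σ' : ℝ) ≤ ε * N' →
        changeLevel (dvd_mul_right N N') χ = changeLevel (dvd_mul_left N' N) χ'

theorem repn_row (hD : G94.DYP_s) (hT : TAU_s) (hU : UNI_s) (hB : BURGG_s) : REPN_s := by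
  intro η hη
  obtain ⟨i₀, hD⟩ := hD
  obtain ⟨κ, hκ, -, r₀, hB⟩ := hB
  obtain ⟨C, hC, hT⟩ := hT.2 0.1 (by norm_num)
  obtain ⟨r₁, h1⟩ := eventually_atTop.1 (((tendsto_rpow_neg_atTop hκ).comp
    tendsto_natCast_atTop_atTop).eventually_le_const (show (0 : ℝ) < η ^ 2 / 4 by positivity))
  obtain ⟨r₂, h2⟩ := eventually_atTop.1 (((tendsto_rpow_atTop (show (0 : ℝ) < 0.22 by norm_num)).comp
    tendsto_natCast_atTop_atTop).eventually_ge_atTop (4 * C / η ^ 2))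
  refine ⟨η ^ 2 / 11000000, by positivity, r₀ + r₁ + r₂ + 2 ^ (100 * (i₀ + 100)),
    fun N N' χ χ' σ σ' h0 hle hsq hφ hφ' hχ hχ' hσ hσ' hE hE' => ?_⟩
  have N0 : 0 < N := lt_of_lt_of_le (by positivity) h0
  have N1 : 0 < N' := N0.trans_le hle
  have : NeZero (N * N') := ⟨(Nat.mul_pos N0 N1).ne'⟩
  obtain ⟨A, hA⟩ : ∃ A, A = changeLevel (dvd_mul_right N N') χ := ⟨_, rfl⟩
  obtain ⟨B, hB'⟩ : ∃ B, B = changeLevel (dvd_mul_left N' N) χ' := ⟨_, rfl⟩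
  have A2 : A ^ 2 = 1 := by rw [hA, ← map_pow, hχ, map_one]
  have B2 : B ^ 2 = 1 := by rw [hB', ← map_pow, hχ', map_one]
  have AB : (A * B) ^ 2 = 1 := by rw [mul_pow, A2, B2, one_mul]
  rw [← hA, ← hB']
  by_contra hc
  have hne : A * B ≠ 1 := fun e => hc (by
    rw [← mul_one A, ← B2, sq, ← mul_assoc, e, one_mul])
  have hre : ∀ n : ℕ, n.Coprime (N * N') → re (A * B) n = re χ n * re χ' n := fun n hn => by
    have : ((re (A * B) n : ℤ) : ℂ) = ((re χ n * re χ' n : ℤ) : ℂ) := by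
      push_cast
      rw [re_coe AB, re_coe hχ, re_coe hχ', MulChar.mul_apply, hA, hB', rep_lev _ _ hn,
        rep_lev _ _ hn]
    exact_mod_cast this
  have l0 : 100 * (i₀ + 100) ≤ Nat.log 2 N :=
    Nat.le_log_of_pow_le one_lt_two (le_of_add_le_right h0)
  have l1 : Nat.log 2 N ≤ Nat.log 2 N' := Nat.log_mono_right hle
  have l2 : N < 2 ^ (Nat.log 2 N + 1) := Nat.lt_pow_succ_log_self one_lt_two N
  have l3 : N' < 2 ^ (Nat.log 2 N' + 1) := Nat.lt_pow_succ_log_self one_lt_two N'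
  have l4 : Nat.log 2 N' < (Nat.log 2 N + 1) * 2 := by
    rw [← Nat.pow_lt_pow_iff_right one_lt_two, pow_mul]
    exact lt_of_le_of_lt ((Nat.pow_log_le_self 2 N1.ne').trans hsq)
      (Nat.pow_lt_pow_left l2 (by norm_num))
  obtain ⟨t, ht⟩ : ∃ t, t = Nat.log 2 N / 100 := ⟨_, rfl⟩
  have d1 := rep_down hD N0 hχ hσ (t := t) (by omega) (by omega) (by omega) hE
  have d2 := rep_down hD N1 hχ' hσ' (t := t) (by omega) (by omega) (by omega) hE'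
  obtain ⟨m, hm, h⟩ : ∃ m ∈ Ico (97 * t) (98 * t),
      (repM χ m : ℝ) / 2 ^ m + (repM χ' m : ℝ) / 2 ^ m ≤ η ^ 2 / 8 := by
    refine exists_le_of_sum_le ⟨97 * t, mem_Ico.2 (by omega)⟩ ?_
    rw [sum_add_distrib, sum_const, Nat.card_Ico, show 98 * t - 97 * t = t by omega, nsmul_eq_mul]
    nlinarith [mul_nonneg (Nat.cast_nonneg (α := ℝ) t) (sq_nonneg η)]
  rw [mem_Ico] at hm
  rw [← add_div, div_le_iff₀ (by positivity)] at h
  have r1 : r₀ + r₁ + r₂ ≤ N * N' :=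
    (le_of_add_le_left h0).trans (Nat.le_mul_of_pos_right N N1)
  have M0 : (0 : ℝ) < (N * N' : ℕ) := Nat.cast_pos.2 (Nat.mul_pos N0 N1)
  have b3 : ((N * N' : ℕ) : ℝ) ^ (0.32 : ℝ) ≤ (2 ^ m : ℕ) := by
    have c1 : ((N * N' : ℕ) : ℝ) ≤ 2 ^ (300 * t + 300) := by
      have : N * N' ≤ 2 ^ (300 * t + 300) := (Nat.mul_le_mul l2.le l3.le).trans (by
        rw [← pow_add]; exact Nat.pow_le_pow_right two_pos (by omega))
      exact_mod_cast this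
    refine (Real.rpow_le_rpow (by positivity) c1 (by norm_num)).trans ?_
    rw [Nat.cast_pow, Nat.cast_ofNat, ← Real.rpow_natCast, ← Real.rpow_natCast,
      ← Real.rpow_mul two_pos.le]
    refine Real.rpow_le_rpow_of_exponent_le one_le_two ?_
    have c2 : (97 * t : ℝ) ≤ m := by exact_mod_cast hm.1
    have c3 : (100 : ℝ) ≤ t := by exact_mod_cast (by omega : 100 ≤ t)
    push_cast
    linarith
  have b1 := (rep_sum hχ hχ' (A * B) hre m).trans (hB (N * N') (by omega) (A * B) AB hne 1 _ b3)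
  have b2 : ((N * N' : ℕ) : ℝ) ^ (-κ) ≤ η ^ 2 / 4 := h1 (N * N') (by omega)
  have b4 : (0 : ℝ) < (2 ^ m : ℕ) := by positivity
  have b5 := mul_le_mul_of_nonneg_left b2 b4.le
  have b6 := (hU (N * N') (Nat.mul_pos N0 N1)).2 (2 ^ m)
  have b7 : ((2 ^ m : ℕ) : ℝ) * η ^ 2 ≤ (2 ^ m : ℕ) * (N * N').totient / (N * N' : ℕ) := by
    rw [mul_div_assoc]
    refine mul_le_mul_of_nonneg_left ?_ b4.le
    rw [le_div_iff₀ M0]
    have c1 : ((N.totient * N'.totient : ℕ) : ℝ) ≤ (N * N').totient :=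
      Nat.cast_le.2 (Nat.totient_super_multiplicative N N')
    have c2 := mul_le_mul hφ hφ' (by positivity) (by positivity)
    push_cast at c1 ⊢
    linarith
  have b8 : (#(N * N').divisors : ℝ) ≤ η ^ 2 / 4 * (2 ^ m : ℕ) := by
    refine (hT _).trans (le_trans ?_ (mul_le_mul_of_nonneg_left b3 (by positivity)))
    have c1 : 4 * C / η ^ 2 ≤ ((N * N' : ℕ) : ℝ) ^ (0.22 : ℝ) := h2 (N * N') (by omega)
    rw [div_le_iff₀ (by positivity)] at c1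
    rw [show (0.32 : ℝ) = 0.22 + 0.1 by norm_num, Real.rpow_add M0, ← mul_assoc]
    exact mul_le_mul_of_nonneg_right (by linarith) (by positivity)
  have b9 : 0 < η ^ 2 * (2 ^ m : ℕ) := by positivity
  rw [Nat.cast_pow, Nat.cast_ofNat] at *
  linarith

/-- The inverse theorem for a class `C` of moduli. -/
def INV_s (C : ℕ → Prop) : Prop := ∀ η ε : ℝ, 0 < η → 0 < ε → ∃ (c : ℝ) (N₀ : ℕ), 0 < c ∧
  ∀ (N : ℕ) [NeZero N], N₀ ≤ N → C N → η * N ≤ N.totient →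
    ∀ e e' : ℤ, (e = 1 ∨ e = -1) → (e' = 1 ∨ e' = -1) → (cnt N e e' : ℝ) < c * N →
      ∃ (χ : Ch N) (σ : ℤ), χ ^ 2 = 1 ∧ χ ≠ 1 ∧ χ (-1) = -(e * e' : ℤ) ∧ (σ = 1 ∨ σ = -1) ∧
        (EX χ σ : ℝ) ≤ ε * N

def PAGE_s (C : ℕ → Prop) : Prop := ∀ η : ℝ, 0 < η → ∃ c : ℝ, 0 < c ∧ ∃ X₀ : ℕ, ∀ X : ℕ, X₀ ≤ X →
  ∃ (q : ℕ) (ψ : DirichletCharacter ℂ q), 1 < q ∧ ψ.IsPrimitive ∧ ψ ^ 2 = 1 ∧
    ∀ M N : ℕ, X ≤ M → M ≤ X ^ 2 → C M → η * M ≤ M.totient → 0 < N → M ∣ N →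
      ∀ e e' : ℤ, (e = 1 ∨ e = -1) → (e' = 1 ∨ e' = -1) → (cnt N e e' : ℝ) < c * M →
        q ∣ M ∧ ψ (-1) = -(e * e' : ℤ)

theorem page_prim {N : ℕ} [NeZero N] {χ : Ch N} (h2 : χ ^ 2 = 1) (h1 : χ ≠ 1) :
    1 < χ.conductor ∧ χ.primitiveCharacter.IsPrimitive ∧ χ.primitiveCharacter ^ 2 = 1 := by
  refine ⟨?_, χ.primitiveCharacter_isPrimitive, ?_⟩
  · have a := χ.conductor_ne_zero
    have b := mt (eq_one_iff_conductor_eq_one).2 h1
    omega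
  · rw [← changeLevel_eq_one_iff χ.conductor_dvd_level, map_pow, changeLevel_primitiveCharacter, h2]

theorem page_eq {N N' L : ℕ} [NeZero L] {χ : Ch N} {χ' : Ch N'} {h : N ∣ L} {h' : N' ∣ L}
    (e : changeLevel h χ = changeLevel h' χ') :
    χ.conductor ∣ N' ∧ χ.primitiveCharacter (-1) = χ' (-1) := by
  constructor
  · rw [← conductor_changeLevel χ h, e, conductor_changeLevel]
    exact χ'.conductor_dvd_level
  · have a := χ.primitiveCharacter_apply_of_isCoprime (a := -1) isCoprime_one_left.neg_left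
    have b := changeLevel_eq_cast_of_dvd' χ h (a := -1) isCoprime_one_left.neg_left
    have c := changeLevel_eq_cast_of_dvd' χ' h' (a := -1) isCoprime_one_left.neg_left
    rw [e, c] at b
    rw [← b] at a
    simpa using a

theorem page_ex : ∃ χ : Ch 3, χ ^ 2 = 1 ∧ χ ≠ 1 := by
  have : Fact (Nat.Prime 3) := ⟨Nat.prime_three⟩
  refine ⟨(quadraticChar (ZMod 3)).ringHomComp (Int.castRingHom ℂ),
    ((quadraticChar_isQuadratic _).comp _).sq_eq_one, ?_⟩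
  rw [MulChar.ringHomComp_ne_one_iff (RingHom.injective_int _)]
  exact quadraticChar_ne_one (by rw [ZMod.ringChar_zmod_n]; norm_num)

theorem page_row {C : ℕ → Prop} (hR : REPN_s) (hM : MON_s) (hI : INV_s C) : PAGE_s C := by
  intro η hη
  obtain ⟨ε, hε, N₁, hR⟩ := hR η hη
  obtain ⟨c, N₂, hc, hI⟩ := hI η ε hη hε
  refine ⟨c, hc, N₁ + N₂ + 1, fun X hX => ?_⟩
  have key : ∀ M N : ℕ, X ≤ M → C M → η * M ≤ M.totient → 0 < N → M ∣ N →
      ∀ e e' : ℤ, (e = 1 ∨ e = -1) → (e' = 1 ∨ e' = -1) → (cnt N e e' : ℝ) < c * M →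
        ∃ (χ : Ch M) (σ : ℤ), χ ^ 2 = 1 ∧ χ ≠ 1 ∧ χ (-1) = -(e * e' : ℤ) ∧ (σ = 1 ∨ σ = -1) ∧
          (EX χ σ : ℝ) ≤ ε * M := by
    rintro M N h1 h2 h3 h4 ⟨d, rfl⟩ e e' he he' h
    have : NeZero M := ⟨by omega⟩
    have hl := lam_cases d
    have hm := hM M d (lam d * e) (lam d * e') (Nat.pos_of_mul_pos_left h4)
    have hs : ∀ x : ℤ, lam d * (lam d * x) = x := fun x => by
      rcases hl with a | a <;> rw [a] <;> ring
    rw [hs, hs] at hm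
    have := hI M (by omega) h2 h3 (lam d * e) (lam d * e')
      (by rcases hl with a | a <;> rcases he with b | b <;> rw [a, b] <;> norm_num)
      (by rcases hl with a | a <;> rcases he' with b | b <;> rw [a, b] <;> norm_num)
      (lt_of_le_of_lt (by exact_mod_cast hm) h)
    rwa [mul_mul_mul_comm, mul_assoc, hs] at this
  by_cases hex : ∃ (M : ℕ) (χ : Ch M) (σ : ℤ), X ≤ M ∧ M ≤ X ^ 2 ∧ η * M ≤ M.totient ∧
      χ ^ 2 = 1 ∧ χ ≠ 1 ∧ (σ = 1 ∨ σ = -1) ∧ (EX χ σ : ℝ) ≤ ε * M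
  · obtain ⟨M₀, χ₀, σ₀, a1, a2, a3, a4, a5, a6, a7⟩ := hex
    have : NeZero M₀ := ⟨by omega⟩
    obtain ⟨p1, p2, p3⟩ := page_prim a4 a5
    refine ⟨_, χ₀.primitiveCharacter, p1, p2, p3,
      fun M N h1 h2 h3 h4 h5 h6 e e' he he' h => ?_⟩
    obtain ⟨χ, σ, b1, -, b3, b4, b5⟩ := key M N h1 h3 h4 h5 h6 e e' he he' h
    have : NeZero M := ⟨by omega⟩
    rw [← b3]
    rcases le_total M₀ M with hle | hle
    · exact page_eq (hR M₀ M χ₀ χ σ₀ σ (by omega) hle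
        (h2.trans (Nat.pow_le_pow_left a1 2)) a3 h4 a4 b1 a6 b4 a7 b5)
    · exact page_eq (hR M M₀ χ χ₀ σ σ₀ (by omega) hle
        (a2.trans (Nat.pow_le_pow_left h1 2)) h4 a3 b1 a4 b4 a6 b5 a7).symm
  · obtain ⟨χ₀, a4, a5⟩ := page_ex
    obtain ⟨p1, p2, p3⟩ := page_prim a4 a5
    refine ⟨_, χ₀.primitiveCharacter, p1, p2, p3,
      fun M N h1 h2 h3 h4 h5 h6 e e' he he' h => ?_⟩
    obtain ⟨χ, σ, b1, b2, -, b4, b5⟩ := key M N h1 h3 h4 h5 h6 e e' he he' h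
    exact absurd ⟨M, χ, σ, h1, h2, h4, b1, b2, b4, b5⟩ hex

end Pool.Agent.G6X
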